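import Pool.Agent.Helper38.MS.Defs

/-!
# MS7b: the number of orbits on the colourings
-/

set_option autoImplicit false

namespace Pool.Agent.Helper38.MS

open FirstOrder Pool.Agent.Helper20.Spectra Pool.Agent.Helper31.QD Pool.Agent.Helper38.MC
  Pool.Agent.Helper58.QD Pool.Agent.Helper40.MC Pool.Agent.Helper6.MC Pool.Agent.Helper6.EA

variable {S : Type} {ar : S → ℕ}

/-- MS7b: more orbits than points (sizes of the first set) -/
theorem lt_oc {c t : ℕ} (hc : 1 ≤ c) (Γ : Subgroup (Equiv.Perm (Fin t))) : t + 1 ≤ oc c Γ := by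
  classical
  have h1 : Nat.card (Fin (t + 1)) = t + 1 := by simp
  rw [← h1]
  unfold oc
  refine Nat.card_le_card_of_injective (fun k : Fin (t + 1) =>
    (Quotient.mk (ocS c Γ) (fun x _ => decide (x.val < k.val)) : Quotient (ocS c Γ))) ?_
  intro k k' hk
  obtain ⟨h, -, hh⟩ : ∃ h ∈ Γ, (fun (x : Fin t) (_ : Fin c) => decide (x.val < k'.val)) =
      (fun (x : Fin t) (_ : Fin c) => decide (x.val < k.val)) ∘ h := Quotient.exact hk
  have h2 : ∀ x : Fin t, x.val < k'.val ↔ (h x).val < k.val := by
    intro x
    have h3 := congrFun (congrFun hh x) ⟨0, by omega⟩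
    simpa using h3
  have h4 : ∀ m : ℕ, m ≤ t → (Finset.univ.filter fun x : Fin t => x.val < m).card = m := by
    intro m hm
    have h5 : (Finset.univ.filter fun x : Fin t => x.val < m) = Finset.univ.image (fun y : Fin m => Fin.castLE hm y) := by
      ext x
      simp only [Finset.mem_filter, Finset.mem_univ, true_and, Finset.mem_image]
      constructor
      · intro hx
        exact ⟨⟨x.val, hx⟩, rfl⟩
      · rintro ⟨y, rfl⟩
        exact y.isLt
    rw [h5, Finset.card_image_of_injective _ (Fin.castLE_injective hm), Finset.card_univ, Fintype.card_fin]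
  have h6 : (Finset.univ.filter fun x : Fin t => x.val < k'.val).card = (Finset.univ.filter fun x : Fin t => x.val < k.val).card := by
    refine Finset.card_bij (fun x _ => h x) ?_ ?_ ?_
    · intro x hx
      simp only [Finset.mem_filter, Finset.mem_univ, true_and] at hx ⊢
      exact (h2 x).1 hx
    · intro x _ y _ hxy
      exact h.injective hxy
    · intro y hy
      simp only [Finset.mem_filter, Finset.mem_univ, true_and] at hy
      refine ⟨h.symm y, ?_, by simp⟩
      simp only [Finset.mem_filter, Finset.mem_univ, true_and]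
      rw [h2]
      simpa using hy
  rw [h4 _ (by omega), h4 _ (by omega)] at h6
  exact Fin.ext h6.symm

/-- oc is monotone in the number of sets -/
theorem oc_mono {c c' : ℕ} (h : c ≤ c') {W : Type} [Finite W] (H : Subgroup (Equiv.Perm W)) : oc c H ≤ oc c' H := by
  classical
  unfold oc
  refine Nat.card_le_card_of_surjective (Quotient.map (sa := ocS c' H) (sb := ocS c H)
    (fun (f : W → Fin c' → Bool) (x : W) (i : Fin c) => f x (Fin.castLE h i)) ?_) ?_
  · rintro f f' ⟨g, hg, rfl⟩
    exact ⟨g, hg, rfl⟩
  · intro q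
    induction q using Quotient.inductionOn with
    | h f =>
      refine ⟨Quotient.mk _ (fun x i => if hi : i.val < c then f x ⟨i.val, hi⟩ else false), ?_⟩
      show Quotient.mk _ _ = Quotient.mk _ _
      congr 1
      funext x i
      simp

/-- fewer sets, fewer blocks, larger bound -/
theorem FamG.mono {V : Type} {R : Interp S ar V} {c c' D D' t O O' : ℕ} (h : FamG R c D t O) (hc : c' ≤ c) (hD : D' ≤ D) (hO : O ≤ O') :
    FamG R c' D' t O' := by
  obtain ⟨u, Γ, hu, h1, h2, h3⟩ := h
  refine ⟨fun p => u (Fin.castLE hD p.1, p.2), Γ, ?_, ?_, ?_, ((oc_mono hc Γ).trans h3).trans hO⟩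
  · intro p q hpq
    have h4 := hu hpq
    rw [Prod.mk.injEq] at h4
    exact Prod.ext (Fin.castLE_injective hD h4.1) h4.2
  · intro π σ h4 h5
    obtain ⟨π', h6, h7⟩ := exists_ext (Fin.castLE_injective hD) π
    refine h1 π' σ ?_ ?_
    · intro i x
      by_cases hi : ∃ j, Fin.castLE hD j = i
      · obtain ⟨j, rfl⟩ := hi
        rw [h6]
        exact h4 j x
      · push Not at hi
        rw [h7 i hi]
        refine h5 _ ?_
        intro p hp
        have h8 := hu hp
        rw [Prod.mk.injEq] at h8
        exact hi _ h8.1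
    · intro z hz
      exact h5 z fun p => hz _
  · intro γ hγ i σ h4 h5
    exact h2 γ hγ (Fin.castLE hD i) σ h4 h5

end Pool.Agent.Helper38.MS
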