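import Pool.Agent.Helper38.MS.Defs

/-!
# MS6a: peeling a family, order of the group
-/

set_option autoImplicit false

namespace Pool.Agent.Helper38.MS

open FirstOrder Pool.Agent.Helper20.Spectra Pool.Agent.Helper31.QD Pool.Agent.Helper38.MC
  Pool.Agent.Helper58.QD Pool.Agent.Helper40.MC Pool.Agent.Helper6.MC Pool.Agent.Helper6.EA

variable {V : Type} [Fintype V]

omit [Fintype V] in
/-- block permutations -/
private theorem exists_blockperm89 {D t : ℕ} (u : Fin D × Fin t → V) (hu : Function.Injective u) (π : Equiv.Perm (Fin D)) :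
    ∃ σ : Equiv.Perm V, (∀ i x, σ (u (i, x)) = u (π i, x)) ∧ ∀ z, (∀ p, u p ≠ z) → σ z = z := by
  obtain ⟨σ, h1, h2⟩ := exists_ext hu (Equiv.prodCongr π (Equiv.refl (Fin t)))
  exact ⟨σ, fun i x => h1 (i, x), h2⟩

/-- the action of an element of the group on the blocks -/
private theorem exists_act89 (G : Subgroup (Equiv.Perm V)) (A : Finset V) {D t : ℕ} (u : Fin D × Fin t → V) (hu : Function.Injective u)
    (hA : ∀ p, u p ∉ A)
    (hperm : ∀ (π : Equiv.Perm (Fin D)) (σ : Equiv.Perm V), (∀ i x, σ (u (i, x)) = u (π i, x)) →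
      (∀ z, (∀ p, u p ≠ z) → σ z = z) → σ ∈ G)
    (h2 : ∀ g ∈ GS G A, ∀ i, ∃ i', ∀ x, ∃ x', g (u (i, x)) = u (i', x'))
    (h3 : ∀ g ∈ GS G A, ∀ i, (∀ x, ∃ x', g (u (i, x)) = u (i, x')) → ∀ σ : Equiv.Perm V,
      (∀ x, σ (u (i, x)) = g (u (i, x))) → (∀ z, (∀ x, u (i, x) ≠ z) → σ z = z) → σ ∈ G)
    (i₀ : Fin D) (hu₀ : Function.Injective (fun x => u (i₀, x))) (g : Equiv.Perm V) (hg : g ∈ GS G A) :
    ∃ (π : Equiv.Perm (Fin D)) (γ : Fin D → res G (fun x => u (i₀, x)) hu₀),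
      ∀ i x, g (u (i, x)) = u (π i, (γ i : Equiv.Perm (Fin t)) x) := by
  classical
  have huu : ∀ {i j : Fin D} {x y : Fin t}, u (i, x) = u (j, y) → i = j ∧ x = y := by
    intro i j x y h
    have := hu h
    rw [Prod.mk.injEq] at this
    exact this
  rcases Nat.eq_zero_or_pos t with ht | ht
  · subst ht
    exact ⟨1, fun _ => 1, fun i x => x.elim0⟩
  choose f hf using h2 g hg
  choose c hc using hf
  have hcinj : ∀ i, Function.Injective (c i) := by
    intro i x y hxy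
    have h4 : g (u (i, x)) = g (u (i, y)) := by rw [hc, hc, hxy]
    exact (huu (g.injective h4)).2
  have hcbij : ∀ i, Function.Bijective (c i) := fun i => Finite.injective_iff_bijective.1 (hcinj i)
  have hfinj : Function.Injective f := by
    intro i j hij
    obtain ⟨y, hy⟩ := (hcbij j).2 (c i ⟨0, ht⟩)
    have h4 : g (u (i, ⟨0, ht⟩)) = g (u (j, y)) := by rw [hc, hc, hij, hy]
    exact (huu (g.injective h4)).1
  let π : Equiv.Perm (Fin D) := Equiv.ofBijective f (Finite.injective_iff_bijective.1 hfinj)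
  let κ : Fin D → Equiv.Perm (Fin t) := fun i => Equiv.ofBijective (c i) (hcbij i)
  have hgk : ∀ i x, g (u (i, x)) = u (π i, κ i x) := fun i x => hc i x
  have hblk : ∀ (ρ : Equiv.Perm (Fin D)) (σ : Equiv.Perm V), (∀ i x, σ (u (i, x)) = u (ρ i, x)) →
      (∀ z, (∀ p, u p ≠ z) → σ z = z) → σ ∈ GS G A := by
    intro ρ σ h4 h5
    refine mem_GS.2 ⟨hperm ρ σ h4 h5, fun x hx => h5 x fun p hp => ?_⟩
    exact hA p (by rw [hp]; exact hx)
  have hmem : ∀ i, κ i ∈ res G (fun x => u (i₀, x)) hu₀ := by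
    intro i
    rw [mem_res]
    intro σ hσ1 hσ2
    -- move the block `π i` to `i`
    obtain ⟨τ, hτ1, hτ2⟩ := exists_blockperm89 u hu π⁻¹
    have hτ : τ ∈ GS G A := hblk _ τ hτ1 hτ2
    have hg' : τ * g ∈ GS G A := GS_mul hτ hg
    have hg1 : ∀ x, (τ * g) (u (i, x)) = u (i, κ i x) := by
      intro x
      rw [Equiv.Perm.mul_apply, hgk, hτ1, show π⁻¹ (π i) = i from π.symm_apply_apply i]
    -- conjugate `σ` by the transposition of the blocks
    obtain ⟨θ, hθ1, hθ2⟩ := exists_blockperm89 u hu (Equiv.swap i₀ i)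
    have hθ : θ ∈ GS G A := hblk _ θ hθ1 hθ2
    have hθG : θ ∈ G := (mem_GS.1 hθ).1
    have hθinv : ∀ j x, θ⁻¹ (u (j, x)) = u (Equiv.swap i₀ i j, x) := by
      intro j x
      rw [Equiv.Perm.inv_eq_iff_eq, hθ1, Equiv.swap_apply_self]
    have h6 : θ * σ * θ⁻¹ ∈ G := by
      refine h3 (τ * g) hg' i (fun x => ⟨κ i x, hg1 x⟩) _ ?_ ?_
      · intro x
        rw [hg1, Equiv.Perm.mul_apply, Equiv.Perm.mul_apply, hθinv, Equiv.swap_apply_right, hσ1, hθ1, Equiv.swap_apply_left]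
      · intro z hz
        rw [Equiv.Perm.mul_apply, Equiv.Perm.mul_apply]
        have h7 : σ (θ⁻¹ z) = θ⁻¹ z := by
          refine hσ2 _ fun x hx => ?_
          have h8 : θ (u (i₀, x)) = z := by
            rw [hx]
            exact θ.apply_symm_apply z
          rw [hθ1, Equiv.swap_apply_left] at h8
          exact hz x h8
        rw [h7]
        exact θ.apply_symm_apply z
    have h7 : σ = θ⁻¹ * (θ * σ * θ⁻¹) * θ := by group
    rw [h7]
    exact G.mul_mem (G.mul_mem (G.inv_mem hθG) h6) hθG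
  exact ⟨π, fun i => ⟨κ i, hmem i⟩, hgk⟩

open Classical in
/-- MS6a: peeling a family, order of the group -/
theorem peel_card (G : Subgroup (Equiv.Perm V)) (A : Finset V) {D t : ℕ} (u : Fin D × Fin t → V) (hu : Function.Injective u)
    (hA : ∀ p, u p ∉ A)
    (hperm : ∀ (π : Equiv.Perm (Fin D)) (σ : Equiv.Perm V), (∀ i x, σ (u (i, x)) = u (π i, x)) →
      (∀ z, (∀ p, u p ≠ z) → σ z = z) → σ ∈ G)
    (h2 : ∀ g ∈ GS G A, ∀ i, ∃ i', ∀ x, ∃ x', g (u (i, x)) = u (i', x'))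
    (h3 : ∀ g ∈ GS G A, ∀ i, (∀ x, ∃ x', g (u (i, x)) = u (i, x')) → ∀ σ : Equiv.Perm V,
      (∀ x, σ (u (i, x)) = g (u (i, x))) → (∀ z, (∀ x, u (i, x) ≠ z) → σ z = z) → σ ∈ G)
    (i₀ : Fin D) (hu₀ : Function.Injective (fun x => u (i₀, x))) :
    (GS G A).card ≤ D.factorial * Nat.card (res G (fun x => u (i₀, x)) hu₀) ^ D * (GS G (A ∪ Finset.univ.image u)).card := by
  have h4 := exists_act89 G A u hu hA hperm h2 h3 i₀ hu₀
  let X := Equiv.Perm (Fin D) × (Fin D → res G (fun x => u (i₀, x)) hu₀)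
  have : Fintype X := Fintype.ofFinite X
  have hX : Fintype.card X = D.factorial * Nat.card (res G (fun x => u (i₀, x)) hu₀) ^ D := by
    rw [← Nat.card_eq_fintype_card, Nat.card_prod, Nat.card_eq_fintype_card, Fintype.card_perm, Fintype.card_fin, Nat.card_fun,
      Nat.card_eq_fintype_card (α := Fin D), Fintype.card_fin]
  let Φ : Equiv.Perm V → X := fun g => if hg : g ∈ GS G A then ⟨(h4 g hg).choose, (h4 g hg).choose_spec.choose⟩ else ⟨1, fun _ => 1⟩
  have hΦ : ∀ g ∈ GS G A, ∀ i x, g (u (i, x)) = u ((Φ g).1 i, ((Φ g).2 i : Equiv.Perm (Fin t)) x) := by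
    intro g hg i x
    have h5 := (h4 g hg).choose_spec.choose_spec i x
    simp only [Φ, dif_pos hg]
    exact h5
  have h5 : (GS G A).card ≤ (GS G (A ∪ Finset.univ.image u)).card * ((GS G A).image Φ).card := by
    refine Finset.card_le_mul_card_image (GS G A) _ ?_
    intro x hx
    obtain ⟨g₀, hg₀, rfl⟩ := Finset.mem_image.1 hx
    refine Finset.card_le_card_of_injOn (fun g => g₀⁻¹ * g) ?_ ?_
    · intro g hg
      have hg1 := (Finset.mem_filter.1 (Finset.mem_coe.1 hg)).1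
      have hg2 := (Finset.mem_filter.1 (Finset.mem_coe.1 hg)).2
      refine Finset.mem_coe.2 (mem_GS.2 ⟨(mem_GS.1 (GS_mul (GS_inv hg₀) hg1)).1, ?_⟩)
      intro y hy
      rcases Finset.mem_union.1 hy with hy | hy
      · exact (mem_GS.1 (GS_mul (GS_inv hg₀) hg1)).2 y hy
      · obtain ⟨⟨i, x⟩, -, rfl⟩ := Finset.mem_image.1 hy
        rw [Equiv.Perm.mul_apply, Equiv.Perm.inv_eq_iff_eq, hΦ g hg1, hΦ g₀ hg₀, hg2]
    · intro g _ g' _ hgg
      exact mul_left_cancel hgg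
  calc (GS G A).card ≤ (GS G (A ∪ Finset.univ.image u)).card * ((GS G A).image Φ).card := h5
    _ ≤ (GS G (A ∪ Finset.univ.image u)).card * Fintype.card X := Nat.mul_le_mul_left _ (Finset.card_le_univ _)
    _ = _ := by rw [hX, mul_comm]

end Pool.Agent.Helper38.MS
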